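import Pool.Agent.W859.AK.Stm

/-!
# Part AVG of project AK: affine Foelner averages
(helper349)
-/

set_option autoImplicit false

open Finset Pool.Agent.W859.AK

namespace Pool.Agent.W349.AK

/-- Foelner averages for finitely many elements of a commutative monoid -/
theorem folner {M : Type} [CommMonoid M] [DecidableEq M] (S : Submonoid M) (A : Finset M)
    (hA : ∀ a ∈ A, a ∈ S) (ε : ℝ) (hε : 0 < ε) :
    ∃ (ι : Type) (_ : Fintype ι) (_ : Nonempty ι) (l : ι → M), (∀ i, l i ∈ S) ∧
      ∀ (G : M → ℝ) (R : ℝ), (∀ x, 0 ≤ G x) → (∀ x, G x ≤ R) → ∀ a ∈ A,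
        |∑ i, G (l i * a) - ∑ i, G (l i)| ≤ ε * R * Fintype.card ι := by
  induction A using Finset.induction_on with
  | empty =>
    exact ⟨Unit, inferInstance, inferInstance, fun _ => 1, fun _ => S.one_mem,
      fun G R _ _ a ha => absurd ha (Finset.notMem_empty a)⟩
  | insert a₀ A ha₀ ih =>
    obtain ⟨ι, hι, hne, l, hl, hG⟩ := ih fun a ha => hA a (Finset.mem_insert_of_mem ha)
    obtain ⟨n, hn⟩ := exists_nat_gt (1 / ε)
    have hn0 : 0 < n := by
      have : (0 : ℝ) < n := lt_trans (by positivity) hn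
      exact_mod_cast this
    have hn1 : 1 ≤ ε * n := by
      rw [div_lt_iff₀ hε] at hn
      linarith
    refine ⟨ι × Fin n, inferInstance, ⟨(hne.some, ⟨0, hn0⟩)⟩,
      fun x => l x.1 * a₀ ^ (x.2 : ℕ), ?_, ?_⟩
    · intro x
      exact S.mul_mem (hl _) (S.pow_mem (hA a₀ (Finset.mem_insert_self _ _)) _)
    · intro G R h0 hR a ha
      have hR0 : 0 ≤ R := (h0 1).trans (hR 1)
      rw [Fintype.card_prod, Fintype.card_fin]
      push_cast
      rcases Finset.mem_insert.1 ha with rfl | ha
      · rw [Fintype.sum_prod_type, Fintype.sum_prod_type, ← Finset.sum_sub_distrib]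
        have e1 : ∀ i, ∑ k : Fin n, G (l i * a ^ (k : ℕ) * a) - ∑ k : Fin n, G (l i * a ^ (k : ℕ)) =
            G (l i * a ^ n) - G (l i * a ^ 0) := by
          intro i
          rw [Fin.sum_univ_eq_sum_range (fun k => G (l i * a ^ k * a)) n,
            Fin.sum_univ_eq_sum_range (fun k => G (l i * a ^ k)) n, ← Finset.sum_sub_distrib,
            ← Finset.sum_range_sub (fun k => G (l i * a ^ k))]
          refine Finset.sum_congr rfl fun k _ => ?_
          rw [pow_succ, mul_assoc]
        rw [Finset.sum_congr rfl fun i _ => e1 i]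
        have e2 : ∀ i, |G (l i * a ^ n) - G (l i * a ^ 0)| ≤ R := by
          intro i
          rw [abs_le]
          have k1 := h0 (l i * a ^ n)
          have k2 := h0 (l i * a ^ 0)
          have k3 := hR (l i * a ^ n)
          have k4 := hR (l i * a ^ 0)
          constructor <;> linarith
        refine (Finset.abs_sum_le_sum_abs _ _).trans ((Finset.sum_le_sum fun i _ => e2 i).trans ?_)
        rw [Finset.sum_const, Finset.card_univ, nsmul_eq_mul]
        have h3 : (0 : ℝ) ≤ (Fintype.card ι : ℝ) * R := by positivity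
        calc (Fintype.card ι : ℝ) * R = (Fintype.card ι : ℝ) * R * 1 := (mul_one _).symm
          _ ≤ (Fintype.card ι : ℝ) * R * (ε * n) := mul_le_mul_of_nonneg_left hn1 h3
          _ = _ := by ring
      · rw [Fintype.sum_prod_type_right, Fintype.sum_prod_type_right, ← Finset.sum_sub_distrib]
        have e2 : ∀ k : Fin n, |∑ i, G (l i * a₀ ^ (k : ℕ) * a) - ∑ i, G (l i * a₀ ^ (k : ℕ))| ≤
            ε * R * Fintype.card ι := by
          intro k
          have h3 := hG (fun x => G (x * a₀ ^ (k : ℕ))) R (fun x => h0 _) (fun x => hR _) a ha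
          have e3 : ∀ i, G (l i * a₀ ^ (k : ℕ) * a) = G (l i * a * a₀ ^ (k : ℕ)) := by
            intro i
            congr 1
            exact mul_right_comm _ _ _
          rw [Finset.sum_congr rfl fun i _ => e3 i]
          exact h3
        refine (Finset.abs_sum_le_sum_abs _ _).trans ((Finset.sum_le_sum fun k _ => e2 k).trans ?_)
        rw [Finset.sum_const, Finset.card_univ, Fintype.card_fin, nsmul_eq_mul]
        apply le_of_eq
        ring

theorem AVG : S_AVG := by
  classical
  intro Q C ε hε hQ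
  obtain ⟨ι, hι, hne, l, hl, hG⟩ := folner (nonZeroDivisors ℚ) Q
    (fun q hq => mem_nonZeroDivisors_of_ne_zero (hQ q hq)) ε hε
  obtain ⟨κ, hκ, hne', u, -, hG'⟩ := folner (M := Multiplicative ℚ) ⊤
    ((Finset.univ ×ˢ C).image fun x : ι × ℚ => Multiplicative.ofAdd (l x.1 * x.2))
    (fun _ _ => Submonoid.mem_top _) ε hε
  let g : ι × κ → ℚ × ℚ := fun x => (l x.1, Multiplicative.toAdd (u x.2))
  have hcard : (0 : ℝ) < Fintype.card (ι × κ) := by
    have : 0 < Fintype.card (ι × κ) := Fintype.card_pos
    exact_mod_cast this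
  have key : ∀ F : ℚ × ℚ → ℝ, ∑ v ∈ Finset.univ.image g,
      (((Finset.univ.filter fun x => g x = v).card : ℝ) / Fintype.card (ι × κ)) * F v =
      (∑ x, F (g x)) / Fintype.card (ι × κ) := by
    intro F
    rw [← Finset.sum_fiberwise_of_maps_to (s := Finset.univ) (t := Finset.univ.image g) (g := g)
      (fun x hx => Finset.mem_image_of_mem g hx) (fun x => F (g x)), Finset.sum_div]
    refine Finset.sum_congr rfl fun v _ => ?_
    have e1 : ∑ x ∈ Finset.univ.filter (fun x => g x = v), F (g x) =
        ((Finset.univ.filter fun x => g x = v).card : ℝ) * F v := by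
      rw [Finset.sum_congr rfl (g := fun _ => F v), Finset.sum_const, nsmul_eq_mul]
      intro x hx
      rw [(Finset.mem_filter.1 hx).2]
    rw [e1]
    ring
  refine ⟨Finset.univ.image g, fun v =>
    ((Finset.univ.filter fun x => g x = v).card : ℝ) / Fintype.card (ι × κ), ?_, ?_, ?_, ?_⟩
  · intro v hv
    obtain ⟨x, -, rfl⟩ := Finset.mem_image.1 hv
    exact nonZeroDivisors.ne_zero (hl x.1)
  · intro v _
    positivity
  · have := key (fun _ => 1)
    simp only [mul_one, Finset.sum_const, Finset.card_univ, nsmul_eq_mul] at this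
    rw [this, div_self hcard.ne']
  · intro f R h0 hR
    have hR0 : 0 ≤ R := (h0 0 0).trans (hR 0 0)
    constructor
    · intro q hq
      rw [key (fun v => f (v.1 * q) v.2), key (fun v => f v.1 v.2), ← sub_div, abs_div,
        abs_of_pos hcard, div_le_iff₀ hcard]
      have e0 : (∑ x, (fun v : ℚ × ℚ => f (v.1 * q) v.2) (g x)) =
          ∑ j, ∑ i, f (l i * q) (Multiplicative.toAdd (u j)) := by
        rw [Fintype.sum_prod_type_right]
      have e0' : (∑ x, (fun v : ℚ × ℚ => f v.1 v.2) (g x)) =
          ∑ j, ∑ i, f (l i) (Multiplicative.toAdd (u j)) := by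
        rw [Fintype.sum_prod_type_right]
      rw [e0, e0', ← Finset.sum_sub_distrib]
      refine (Finset.abs_sum_le_sum_abs _ _).trans ((Finset.sum_le_sum fun j _ =>
        hG (fun x => f x (Multiplicative.toAdd (u j))) R (fun x => h0 _ _) (fun x => hR _ _) q
          hq).trans ?_)
      rw [Finset.sum_const, Finset.card_univ, nsmul_eq_mul, Fintype.card_prod]
      push_cast
      apply le_of_eq
      ring
    · intro c hc
      rw [key (fun v => f v.1 (v.2 + v.1 * c)), key (fun v => f v.1 v.2), ← sub_div, abs_div,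
        abs_of_pos hcard, div_le_iff₀ hcard]
      have e0 : (∑ x, (fun v : ℚ × ℚ => f v.1 (v.2 + v.1 * c)) (g x)) =
          ∑ i, ∑ j, f (l i) (Multiplicative.toAdd (u j) + l i * c) := by
        rw [Fintype.sum_prod_type]
      have e0' : (∑ x, (fun v : ℚ × ℚ => f v.1 v.2) (g x)) =
          ∑ i, ∑ j, f (l i) (Multiplicative.toAdd (u j)) := by
        rw [Fintype.sum_prod_type]
      rw [e0, e0', ← Finset.sum_sub_distrib]
      refine (Finset.abs_sum_le_sum_abs _ _).trans ((Finset.sum_le_sum fun i _ =>
        hG' (fun x => f (l i) (Multiplicative.toAdd x)) R (fun x => h0 _ _) (fun x => hR _ _)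
          (Multiplicative.ofAdd (l i * c))
          (Finset.mem_image.2 ⟨(i, c), Finset.mem_product.2 ⟨Finset.mem_univ _, hc⟩, rfl⟩)).trans ?_)
      rw [Finset.sum_const, Finset.card_univ, nsmul_eq_mul, Fintype.card_prod]
      push_cast
      apply le_of_eq
      ring

end Pool.Agent.W349.AK
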