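import Pool.Agent.W859.AK.Stm

/-!
# Part KT of project AK: the Katz-Tao lower bound
(helper349)
-/

set_option autoImplicit false

open Finset Pool.Agent.W904.AK Pool.Agent.W859.AK

namespace Pool.Agent.W349.AK

theorem H_congr_supp {Ω α : Type} [Fintype Ω] {p : Ω → ℝ} (hp : IsLaw p) {f g : Ω → α}
    (h : ∀ z, p z ≠ 0 → f z = g z) : H p f = H p g :=
  H_congr hp (fun x y hx hy hxy => by rw [← h x hx, ← h y hy, hxy])
    (fun x y hx hy hxy => by rw [h x hx, h y hy, hxy])

/-- the marginal on the first and the third line -/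
theorem marg {Ω α : Type} [Fintype Ω] {W : Type} (p : Ω → ℝ) (hp : IsLaw p) (X : Ω → W)
    (Y : Ω → α) :
    im (glue (glue p p Y Y) p (fun z => X z.1) X) (fun z => (z.1.1, z.2)) = glue p p X X := by
  classical
  have hYY : ∀ c, im p Y c = im p Y c := fun _ => rfl
  funext ⟨x, y⟩
  rw [im_eq_sum, Fintype.sum_prod_type, Fintype.sum_prod_type]
  have e0 : ∀ x1 x2 x3 : Ω, ∀ r : ℝ, ∀ (d : Decidable ((x1, x3) = (x, y))),
      (@ite _ ((x1, x3) = (x, y)) d r 0) = if x1 = x then (if x3 = y then r else 0) else 0 := by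
    intro x1 x2 x3 r d
    by_cases h1 : x1 = x
    · by_cases h2 : x3 = y
      · rw [if_pos h1, if_pos h2, if_pos (by rw [h1, h2])]
      · rw [if_pos h1, if_neg h2, if_neg (fun h => h2 (Prod.ext_iff.1 h).2)]
    · rw [if_neg h1, if_neg (fun h => h1 (Prod.ext_iff.1 h).1)]
  have e1 : ∀ x1 x2 x3 : Ω, ∀ (d : Decidable ((x1, x3) = (x, y))),
      (@ite _ ((x1, x3) = (x, y)) d (glue (glue p p Y Y) p (fun z => X z.1) X ((x1, x2), x3)) 0) =
      if x1 = x then (if x3 = y then glue (glue p p Y Y) p (fun z => X z.1) X ((x1, x2), x3)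
        else 0) else 0 := fun x1 x2 x3 d => e0 x1 x2 x3 _ d
  dsimp only
  simp only [e1]
  have e2 : ∀ x1 : Ω, ∑ x2 : Ω, ∑ x3 : Ω, (if x1 = x then (if x3 = y then
      glue (glue p p Y Y) p (fun z => X z.1) X ((x1, x2), x3) else 0) else 0) =
      if x1 = x then ∑ x2 : Ω, glue (glue p p Y Y) p (fun z => X z.1) X ((x1, x2), y) else 0 := by
    intro x1
    by_cases h : x1 = x
    · simp only [if_pos h, Finset.sum_ite_eq', Finset.mem_univ, if_true]
    · simp only [if_neg h, Finset.sum_const_zero]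
  simp only [e2, Finset.sum_ite_eq', Finset.mem_univ, if_true]
  unfold glue
  dsimp only
  by_cases h : X x = X y
  · simp only [if_pos h]
    have h1 := glue_sum_right (g := Y) hp hYY x
    unfold glue at h1
    dsimp only at h1
    have h2 : ∀ a, im (glue p p Y Y) (fun z => X z.1) a = im p X a :=
      fun a => im_glue_fst hp hYY X a
    have h3 := h2 (X x)
    unfold glue at h3
    rw [h3, ← Finset.sum_div, ← Finset.sum_mul, h1]
  · simp only [if_neg h, Finset.sum_const_zero]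

/-- the law of the three lines -/
theorem law3 {Ω : Type} [Fintype Ω] {W : Type} [AddCommGroup W] [Module ℚ W] (p : Ω → ℝ)
    (X D : Ω → W) (hp : IsLaw p) (hdet : Det p D X) :
    ∃ q : (Ω × Ω) × Ω → ℝ, IsLaw q ∧
      (∀ z, q z ≠ 0 → X z.1.1 = X z.2 ∧ pos X D 1 z.1.1 = pos X D 1 z.1.2 ∧ p z.1.1 ≠ 0 ∧
        p z.1.2 ≠ 0 ∧ p z.2 ≠ 0) ∧
      (∀ u : Ω → W, H q (fun z => u z.1.2) = H p u) ∧
      (∀ u : Ω × Ω → W, H q (fun z => u (z.1.1, z.2)) = H (pair p X) u) ∧
      H q (fun z => ((D z.1.1, D z.1.2), D z.2)) = 3 * H p D - H p (pos X D 1) - H p X ∧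
      H q (fun z => ((X z.1.1, X z.1.2), D z.2)) =
        H p D + pp p (pos X D 1) D (-1) (-1) - H p X := by
  have hYY : ∀ c, im p (pos X D 1) c = im p (pos X D 1) c := fun _ => rfl
  have hdY : Det p D (pos X D 1) := by
    intro x y hx hy hxy
    have := hdet x y hx hy hxy
    simp only [pos, this, hxy]
  have hq1l : IsLaw (glue p p (pos X D 1) (pos X D 1)) := glue_law hp hp hYY
  have hfg : ∀ c, im (glue p p (pos X D 1) (pos X D 1)) (fun z => X z.1) c = im p X c :=
    fun c => im_glue_fst hp hYY X c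
  refine ⟨glue (glue p p (pos X D 1) (pos X D 1)) p (fun z => X z.1) X, glue_law hq1l hp hfg,
    ?_, ?_, ?_, ?_, ?_⟩
  · intro z hz
    obtain ⟨a1, a2, a3⟩ := glue_supp hz
    obtain ⟨b1, b2, b3⟩ := glue_supp a2
    exact ⟨a1, b1, b2, b3, a3⟩
  · intro u
    have h1 := H_glue_fst hq1l hfg (fun x : Ω × Ω => u x.2)
    have h2 := H_glue_snd (p := p) (q := p) (f := pos X D 1) (g := pos X D 1) hp hYY u
    exact h1.trans h2
  · intro u
    exact H_map (marg p hp X (pos X D 1)) u
  · have h1 := H_glue (f := fun z : Ω × Ω => X z.1) (g := X) hq1l hp hfg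
      (u := fun z : Ω × Ω => (D z.1, D z.2)) (v := D)
      (by
        intro x y hx hy hxy
        exact hdet _ _ (glue_supp hx).2.1 (glue_supp hy).2.1 (Prod.ext_iff.1 hxy).1) hdet
    have h2 := H_glue (f := pos X D 1) (g := pos X D 1) hp hp hYY (u := D) (v := D) hdY hdY
    have h3 := H_glue_fst (p := p) (q := p) (f := pos X D 1) (g := pos X D 1) hp hYY X
    rw [h3, h2] at h1
    refine h1.trans ?_
    ring
  · have h1 := H_glue (f := fun z : Ω × Ω => X z.1) (g := X) hq1l hp hfg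
      (u := fun z : Ω × Ω => (X z.1, X z.2)) (v := D) (Det.fst _ _ _) hdet
    have h3 := H_glue_fst (p := p) (q := p) (f := pos X D 1) (g := pos X D 1) hp hYY X
    have hpos : ∀ x, pos (pos X D 1) D (-1) x = X x := by
      intro x
      simp [pos]
    have h5 : pp p (pos X D 1) D (-1) (-1) =
        H (glue p p (pos X D 1) (pos X D 1)) (fun z => (X z.1, X z.2)) := by
      unfold pp pair
      simp only [hpos]
    rw [h3, ← h5] at h1
    refine h1.trans ?_
    ring

theorem KT : S_KT := by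
  classical
  intro b T w hO hb m t0 tp hm ht ht2
  have h0p : t0 - tp ≠ 0 := sub_ne_zero.2 ht
  refine ⟨insert 0 (insert 1 (T.image fun t => 1 + (t - t0) / (t0 - tp))), ?_⟩
  intro Ω _ W _ _ p X D h hp hdet hF
  have hX0 : H p X ≤ h := by
    have := hF 0 (by simp)
    have e : pos X D 0 = X := by
      funext x
      simp [pos]
    rwa [e] at this
  have hY0 : H p (pos X D 1) ≤ h := hF 1 (by simp)
  have hdY : Det p D (pos X D 1) := by
    intro x y hx hy hxy
    have := hdet x y hx hy hxy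
    simp only [pos, this, hxy]
  obtain ⟨q, hql, supp, hL2, hL13, htot, hXX⟩ := law3 p X D hp hdet
  obtain ⟨Y, hY⟩ : ∃ Y, Y = pos X D 1 := ⟨_, rfl⟩
  rw [← hY] at supp htot hXX hY0 hdY ⊢
  have hYx : ∀ x, Y x = X x + D x := by
    intro x
    rw [hY]
    simp [pos]
  obtain ⟨G, hG⟩ : ∃ G : (Ω × Ω) × Ω → W, ∀ z, G z = Y z.1.2 - D z.1.2 + m • D z.2 :=
    ⟨_, fun _ => rfl⟩
  obtain ⟨X', hX'⟩ : ∃ X' : (Ω × Ω) × Ω → W, ∀ z, X' z = Y z.1.2 - (t0 / (t0 - tp)) • D z.1.2 :=
    ⟨_, fun _ => rfl⟩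
  obtain ⟨D', hD'⟩ : ∃ D' : (Ω × Ω) × Ω → W, ∀ z, D' z = (1 / (t0 - tp)) • D z.1.2 :=
    ⟨_, fun _ => rfl⟩
  have hinj : ∀ (c : ℚ), c ≠ 0 → ∀ u v : W, c • u = c • v → u = v := by
    intro c hc u v h1
    have h2 : c⁻¹ • (c • u) = c⁻¹ • (c • v) := by rw [h1]
    rwa [inv_smul_smul₀ hc, inv_smul_smul₀ hc] at h2
  have hD'det : ∀ z z', D' z = D' z' → D z.1.2 = D z'.1.2 := by
    intro z z' h1
    rw [hD', hD'] at h1
    exact hinj _ (one_div_ne_zero h0p) _ _ h1
  have hcond := hO.cond' hql (C := G) (X := X') (D := D')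
    (A := fun z => ((D z.1.1, D z.1.2), D z.2))
    (by
      intro z z' hz hz' h1
      have h2 := hD'det z z' (Prod.ext_iff.1 h1).2
      have h3 := hdY _ _ (supp z hz).2.2.2.1 (supp z' hz').2.2.2.1 h2
      rw [hX', hX', h2, h3])
    (by
      intro z z' hz hz' h1
      have hGG : G z = G z' := (Prod.ext_iff.1 h1).1
      have h2 := hD'det z z' (Prod.ext_iff.1 h1).2
      have h3 := hdY _ _ (supp z hz).2.2.2.1 (supp z' hz').2.2.2.1 h2
      rw [hG, hG, h2, h3] at hGG
      have h4 : D z.2 = D z'.2 := hinj m hm _ _ (add_left_cancel hGG)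
      have h5 := hdet _ _ (supp z hz).2.2.2.2 (supp z' hz').2.2.2.2 h4
      have h6 : X z.1.1 = X z'.1.1 := by rw [(supp z hz).1, (supp z' hz').1, h5]
      have h7 : Y z.1.1 = Y z'.1.1 := by rw [(supp z hz).2.1, (supp z' hz').2.1, h3]
      have h8 : D z.1.1 = D z'.1.1 := by
        rw [hYx, hYx, h6] at h7
        exact add_left_cancel h7
      change ((D z.1.1, D z.1.2), D z.2) = ((D z'.1.1, D z'.1.2), D z'.2)
      rw [h8, h2, h4])
  -- the terms
  have hterm : ∀ t ∈ T, H q (fun z => (G z, X' z + t • D' z)) ≤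
      h + phi p X D 1 (m * (t - t0) / (t - tp)) := by
    intro t htT
    obtain ⟨ht0, htp⟩ := ht2 t htT
    obtain ⟨τ, hτ⟩ : ∃ τ, τ = (t - t0) / (t0 - tp) := ⟨_, rfl⟩
    have hτ0 : τ ≠ 0 := by
      rw [hτ]
      exact div_ne_zero (sub_ne_zero.2 ht0) h0p
    have hτ1 : τ + 1 = (t - tp) / (t0 - tp) := by
      rw [hτ]
      field_simp
      ring
    have htp' : t - tp ≠ 0 := sub_ne_zero.2 htp
    obtain ⟨μ, hμ⟩ : ∃ μ, μ = m * (t - t0) / (t - tp) := ⟨_, rfl⟩
    have hμτ : (τ + 1) * μ = m * τ := by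
      rw [hτ1, hμ, hτ]
      field_simp
    have hXt : ∀ z, X' z + t • D' z = pos X D (1 + τ) z.1.2 := by
      intro z
      have hc : 1 - (t0 / (t0 - tp)) + t * (1 / (t0 - tp)) = 1 + τ := by
        rw [hτ]
        field_simp
        ring
      rw [hX', hD', hYx, smul_smul]
      unfold pos
      rw [← hc]
      module
    have h1 : H q (fun z => (G z, X' z + t • D' z)) ≤
        H q (fun z => pos X D (1 + τ) z.1.2) + H q (fun z => Y z.1.2 + μ • D z.2) := by
      apply subadd hql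
      intro z z' _ _ hzz
      have h2 : pos X D (1 + τ) z.1.2 = pos X D (1 + τ) z'.1.2 := (Prod.ext_iff.1 hzz).1
      have h3 : Y z.1.2 + μ • D z.2 = Y z'.1.2 + μ • D z'.2 := (Prod.ext_iff.1 hzz).2
      have hGG : ∀ z : (Ω × Ω) × Ω, τ • G z =
          (τ + 1) • (Y z.1.2 + μ • D z.2) - pos X D (1 + τ) z.1.2 := by
        intro z
        rw [hG, smul_add (τ + 1), smul_smul (τ + 1), hμτ, hYx]
        unfold pos
        module
      have h5 : G z = G z' := hinj τ hτ0 _ _ (by rw [hGG, hGG, h2, h3])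
      change (G z, X' z + t • D' z) = (G z', X' z' + t • D' z')
      rw [h5, hXt, hXt, h2]
    have h2 : H q (fun z => pos X D (1 + τ) z.1.2) ≤ h := by
      rw [hL2]
      apply hF
      rw [hτ]
      exact Finset.mem_insert_of_mem (Finset.mem_insert_of_mem
        (Finset.mem_image_of_mem (fun t => 1 + (t - t0) / (t0 - tp)) htT))
    have h3 : H q (fun z => Y z.1.2 + μ • D z.2) = phi p X D 1 μ := by
      have h4 : H q (fun z => Y z.1.2 + μ • D z.2) =
          H q (fun z => X z.1.1 + (1 : ℚ) • D z.1.1 + μ • D z.2) :=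
        H_congr_supp hql fun z hz => by rw [← (supp z hz).2.1, hYx, one_smul]
      rw [h4]
      exact hL13 (fun x => X x.1 + (1 : ℚ) • D x.1 + μ • D x.2)
    rw [← hμ]
    linarith
  -- the lower bound for the entropy of `G`
  have hGlow : H p D + pp p Y D (-1) (-1) - 2 * h ≤ H q G := by
    have h1 : H q (fun z => ((X z.1.1, X z.1.2), D z.2)) ≤ H q G + H q (fun z => X z.1.2) := by
      apply subadd hql
      intro z z' hz hz' hzz
      have h2 : G z = G z' := (Prod.ext_iff.1 hzz).1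
      have h3 : X z.1.2 = X z'.1.2 := (Prod.ext_iff.1 hzz).2
      have h4 : ∀ z : (Ω × Ω) × Ω, m • D z.2 = G z - X z.1.2 := by
        intro z
        rw [hG, hYx]
        module
      have h5 : D z.2 = D z'.2 := hinj m hm _ _ (by rw [h4, h4, h2, h3])
      have h6 := hdet _ _ (supp z hz).2.2.2.2 (supp z' hz').2.2.2.2 h5
      have h7 : X z.1.1 = X z'.1.1 := by rw [(supp z hz).1, (supp z' hz').1, h6]
      change ((X z.1.1, X z.1.2), D z.2) = ((X z'.1.1, X z'.1.2), D z'.2)
      rw [h7, h3, h5]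
    have h2 : H q (fun z => X z.1.2) ≤ h := by
      rw [hL2]
      exact hX0
    linarith
  -- assembly
  have hw0 := hO.1
  have hw1 := hO.2.1
  have hsum : ∑ t ∈ T, w t * (H q (fun z => (G z, X' z + t • D' z)) - H q G) ≤
      h + ∑ t ∈ T, w t * phi p X D 1 (m * (t - t0) / (t - tp)) - H q G := by
    have h1 : ∑ t ∈ T, w t * (H q (fun z => (G z, X' z + t • D' z)) - H q G) ≤
        ∑ t ∈ T, w t * (h + phi p X D 1 (m * (t - t0) / (t - tp)) - H q G) := by
      refine Finset.sum_le_sum fun t htT => mul_le_mul_of_nonneg_left ?_ (hw0 t htT)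
      have := hterm t htT
      linarith
    have h2 : ∑ t ∈ T, w t * (h + phi p X D 1 (m * (t - t0) / (t - tp)) - H q G) =
        (∑ t ∈ T, w t) * (h - H q G) + ∑ t ∈ T, w t * phi p X D 1 (m * (t - t0) / (t - tp)) := by
      rw [Finset.sum_mul, ← Finset.sum_add_distrib]
      exact Finset.sum_congr rfl fun t _ => by ring
    rw [h2, hw1] at h1
    linarith
  have hfin := hcond.trans (mul_le_mul_of_nonneg_left hsum (by linarith : (0 : ℝ) ≤ b))
  rw [htot] at hfin
  have hG2 := mul_le_mul_of_nonneg_left hGlow (by linarith : (0 : ℝ) ≤ b - 1)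
  linarith

end Pool.Agent.W349.AK
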